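import Mathlib
import Pool.Agent.H16R2.RankAmp5

set_option autoImplicit false
set_option linter.unusedSectionVars false

universe u v

namespace Pool.Agent.Results.MP_7f7a01_al.Threshold

open Module Pool.Agent.H16R2.RankAmp

/-- The normalised rank distance on `GL(n, K)`. -/
noncomputable def dRank {K : Type v} [Field K] {n : ℕ} (A B : GL (Fin n) K) : ℝ :=
  (((A : Matrix (Fin n) (Fin n) K) - (B : Matrix (Fin n) (Fin n) K)).rank : ℝ) / n

/-- The group `G` is `ε`-approximable by `(GL(n, K), dRank, n, ε)`: for every finite `F ⊆ G` and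
every `δ > 0` some map `φ : G → GL(n, K)` is `δ`-multiplicative on `F` and moves distinct points
of `F` to points at distance more than `ε - δ`. -/
def Approximable (K : Type v) [Field K] (ε : ℝ) (G : Type u) [Group G] : Prop :=
  ∀ F : Finset G, ∀ δ : ℝ, 0 < δ → ∃ n : ℕ, 1 ≤ n ∧ ∃ φ : G → GL (Fin n) K,
    (∀ g ∈ F, ∀ h ∈ F, dRank (φ g * φ h) (φ (g * h)) < δ) ∧
    (∀ g ∈ F, ∀ h ∈ F, g ≠ h → ε - δ < dRank (φ g) (φ h))

section Part1

variable {K : Type v} [Field K] {G : Type u} [Group G]

lemma Approximable.mono {ε ε' : ℝ} (h : ε' ≤ ε) (H : Approximable K ε G) :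
    Approximable K ε' G := by
  intro F δ hδ
  obtain ⟨n, hn, φ, h1, h2⟩ := H F δ hδ
  exact ⟨n, hn, φ, h1, fun g hg k hk hgk => by have := h2 g hg k hk hgk; linarith⟩

lemma rank_sub_comm {n : ℕ} (A B : Matrix (Fin n) (Fin n) K) : (A - B).rank = (B - A).rank := by
  rw [← neg_sub, rank_neg']

lemma toRank {ε : ℝ} (h : Approximable K ε G) :
    RankApprox K G (fun _ => ε) := by
  classical
  intro F hF η hη
  obtain ⟨n, hn, φ, h1, h2⟩ := h (insert 1 F) (η / 3) (by positivity)
  have hn' : (0 : ℝ) < n := by exact_mod_cast hn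
  have hone : (((φ 1 : Matrix (Fin n) (Fin n) K) - 1).rank : ℝ) / n < η / 3 := by
    have := h1 1 (Finset.mem_insert_self _ _) 1 (Finset.mem_insert_self _ _)
    unfold dRank at this
    have e : ((φ 1 * φ 1 : GL (Fin n) K) : Matrix (Fin n) (Fin n) K) - (φ (1 * 1) : Matrix (Fin n) (Fin n) K)
        = (φ 1 : Matrix (Fin n) (Fin n) K) * ((φ 1 : Matrix (Fin n) (Fin n) K) - 1) := by
      rw [mul_one, Units.val_mul, mul_sub, mul_one]
    rwa [e, rank_unit_mul] at this
  refine ⟨n, fun g => if g = 1 then 1 else φ g, hn, by simp, ?_⟩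
  intro g hg k hk
  have hg1 : g ≠ 1 := fun h => hF (h ▸ hg)
  have hk1 : k ≠ 1 := fun h => hF (h ▸ hk)
  simp only [if_neg hg1, if_neg hk1]
  constructor
  · unfold rkLen
    rw [← rank_defect]
    have h3 := h1 g (Finset.mem_insert_of_mem hg) k (Finset.mem_insert_of_mem hk)
    unfold dRank at h3
    rw [rank_sub_comm, Units.val_mul] at h3
    by_cases hgk : g * k = 1
    · rw [if_pos hgk]
      rw [hgk] at h3
      have e : ((1 : GL (Fin n) K) : Matrix (Fin n) (Fin n) K) - (φ g : Matrix (Fin n) (Fin n) K) * φ k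
          = (1 - (φ 1 : Matrix (Fin n) (Fin n) K)) +
            ((φ 1 : Matrix (Fin n) (Fin n) K) - (φ g : Matrix (Fin n) (Fin n) K) * φ k) := by
        rw [Units.val_one]; abel
      rw [e]
      have h4 := rank_add_le' (1 - (φ 1 : Matrix (Fin n) (Fin n) K))
            ((φ 1 : Matrix (Fin n) (Fin n) K) - (φ g : Matrix (Fin n) (Fin n) K) *
              (φ k : Matrix (Fin n) (Fin n) K))
      rw [rank_sub_comm] at hone
      have h5 := (Nat.cast_le (α := ℝ)).2 h4
      rw [Nat.cast_add] at h5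
      rw [div_lt_iff₀ hn'] at hone h3 ⊢
      nlinarith
    · rw [if_neg hgk]
      refine h3.trans ?_
      linarith
  · unfold rkLen
    have h3 := h2 g (Finset.mem_insert_of_mem hg) 1 (Finset.mem_insert_self _ _) hg1
    unfold dRank at h3
    have e : (φ g : Matrix (Fin n) (Fin n) K) - (φ 1 : Matrix (Fin n) (Fin n) K)
          = ((φ g : Matrix (Fin n) (Fin n) K) - 1) + (1 - (φ 1 : Matrix (Fin n) (Fin n) K)) := by
      abel
    rw [e] at h3
    have h4 := rank_add_le' ((φ g : Matrix (Fin n) (Fin n) K) - 1)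
      (1 - (φ 1 : Matrix (Fin n) (Fin n) K))
    rw [rank_sub_comm] at hone
    have h5 := (Nat.cast_le (α := ℝ)).2 h4
    rw [Nat.cast_add] at h5
    rw [div_lt_iff₀ hn'] at hone
    rw [lt_div_iff₀ hn'] at h3 ⊢
    nlinarith

lemma fromRank (h : RankApproxScalar K G (fun g => 1 - 1 / (orderOf g : ℝ))) :
    Approximable K (1 / 2) G := by
  classical
  intro F δ hδ
  set F' : Finset G := (F ∪ Finset.image₂ (fun g k => g⁻¹ * k) F F).erase 1 with hF'
  obtain ⟨n, Φ, hn, hΦ1, h2⟩ := h F' (Finset.notMem_erase _ _) (δ / 3) (by positivity)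
  have hn' : (0 : ℝ) < n := by exact_mod_cast hn
  have hmemF : ∀ g ∈ F, g ≠ 1 → g ∈ F' := fun g hg hg1 =>
    Finset.mem_erase.2 ⟨hg1, Finset.mem_union_left _ hg⟩
  have hmul : ∀ g ∈ F', ∀ k ∈ F', ((((Φ g : Matrix (Fin n) (Fin n) K) * Φ k) -
      (Φ (g * k) : Matrix (Fin n) (Fin n) K)).rank : ℝ) / n < δ / 3 := by
    intro g hg k hk
    have h3 := (h2 g hg k hk).1
    unfold rkLen at h3
    rw [← rank_defect, rank_sub_comm] at h3
    exact h3
  refine ⟨n, hn, Φ, ?_, ?_⟩
  · intro g hg k hk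
    unfold dRank
    by_cases hg1 : g = 1
    · subst hg1
      rw [hΦ1]
      simpa using hδ
    by_cases hk1 : k = 1
    · subst hk1
      rw [hΦ1]
      simpa using hδ
    have h3 := hmul g (hmemF g hg hg1) k (hmemF k hk hk1)
    rw [Units.val_mul]
    linarith
  · intro g hg k hk hgk
    have hne : g⁻¹ * k ≠ 1 := by
      intro h0
      exact hgk (inv_mul_eq_one.1 h0)
    have hx : g⁻¹ * k ∈ F' := by
      rw [hF', Finset.mem_erase]
      exact ⟨hne, Finset.mem_union_right _ (Finset.mem_image₂_of_mem hg hk)⟩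
    have hord : 1 / (orderOf (g⁻¹ * k) : ℝ) ≤ 1 / 2 := by
      rcases Nat.eq_zero_or_pos (orderOf (g⁻¹ * k)) with h0 | h0
      · rw [h0]; norm_num
      · have h1 : orderOf (g⁻¹ * k) ≠ 1 := fun h => hne (orderOf_eq_one_iff.1 h)
        have h2 : 2 ≤ orderOf (g⁻¹ * k) := by omega
        have h3 : (2 : ℝ) ≤ orderOf (g⁻¹ * k) := by exact_mod_cast h2
        exact one_div_le_one_div_of_le (by norm_num) h3
    have h3 := (h2 _ hx _ hx).2 1
    rw [one_smul] at h3
    have h4 : 1 / 2 - δ / 3 < (((Φ (g⁻¹ * k) : Matrix (Fin n) (Fin n) K) - 1).rank : ℝ) / n := by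
      refine lt_of_le_of_lt ?_ h3
      simp only
      linarith
    unfold dRank
    by_cases hg1 : g = 1
    · subst hg1
      rw [inv_one, one_mul] at h4
      rw [hΦ1, Units.val_one, rank_sub_comm]
      linarith
    have h5 := hmul g (hmemF g hg hg1) _ hx
    rw [mul_inv_cancel_left] at h5
    have e : (Φ g : Matrix (Fin n) (Fin n) K) * ((Φ (g⁻¹ * k) : Matrix (Fin n) (Fin n) K) - 1) =
        ((Φ g : Matrix (Fin n) (Fin n) K) * Φ (g⁻¹ * k) - (Φ k : Matrix (Fin n) (Fin n) K)) +
          ((Φ k : Matrix (Fin n) (Fin n) K) - Φ g) := by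
      rw [mul_sub, mul_one]; abel
    have h6 := rank_add_le' ((Φ g : Matrix (Fin n) (Fin n) K) *
          (Φ (g⁻¹ * k) : Matrix (Fin n) (Fin n) K) - (Φ k : Matrix (Fin n) (Fin n) K))
          ((Φ k : Matrix (Fin n) (Fin n) K) - (Φ g : Matrix (Fin n) (Fin n) K))
    rw [← e, rank_unit_mul, rank_sub_comm (Φ k : Matrix (Fin n) (Fin n) K)] at h6
    have h7 := (Nat.cast_le (α := ℝ)).2 h6
    rw [Nat.cast_add] at h7
    rw [lt_div_iff₀ hn'] at h4 ⊢
    rw [div_lt_iff₀ hn'] at h5
    nlinarith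

lemma half_of_pos {ε : ℝ} (hε : 0 < ε) (h : Approximable K ε G) : Approximable K (1 / 2) G :=
  fromRank (Pool.Agent.H16R2.RankAmp.main (fun _ => ε) (fun _ _ => hε) (toRank h))

end Part1

section Part2

variable {K : Type v} [Field K] {V : Type*} [AddCommGroup V] [Module K V] [FiniteDimensional K V]

lemma rn (f : V →ₗ[K] V) (U : Submodule K V) :
    finrank K (U.map f) + finrank K (LinearMap.ker f ⊓ U : Submodule K V) = finrank K U := by
  have h := LinearMap.finrank_range_add_finrank_ker (f.domRestrict U)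
  rw [LinearMap.range_domRestrict, LinearMap.ker_domRestrict] at h
  have e : finrank K (Submodule.comap U.subtype (LinearMap.ker f)) =
      finrank K (LinearMap.ker f ⊓ U : Submodule K V) := by
    rw [← Submodule.finrank_map_subtype_eq U, Submodule.map_comap_subtype, inf_comm]
  omega

variable {G : Type*} [CommGroup G]

/-- the maps `A g` restrict to an honest representation on `U` -/
def Exact (A : G → V →ₗ[K] V) (U : Submodule K V) : Prop :=
  (∀ g, ∀ w ∈ U, A g w ∈ U) ∧ (∀ g h, ∀ w ∈ U, A g (A h w) = A (g * h) w) ∧ (∀ w ∈ U, A 1 w = w)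

/-- fixed vectors of `g` in `U` -/
def fx (A : G → V →ₗ[K] V) (U : Submodule K V) (g : G) : Submodule K V :=
  LinearMap.ker (A g - LinearMap.id) ⊓ U

lemma mem_fx {A : G → V →ₗ[K] V} {U : Submodule K V} {g : G} {w : V} :
    w ∈ fx A U g ↔ A g w = w ∧ w ∈ U := by
  unfold fx
  rw [Submodule.mem_inf, LinearMap.mem_ker, LinearMap.sub_apply, LinearMap.id_apply, sub_eq_zero]

/-- vectors of `U` inverted by `g` -/
def ng (A : G → V →ₗ[K] V) (U : Submodule K V) (g : G) : Submodule K V :=
  LinearMap.ker (A g + LinearMap.id) ⊓ U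

lemma mem_ng {A : G → V →ₗ[K] V} {U : Submodule K V} {g : G} {w : V} :
    w ∈ ng A U g ↔ A g w = -w ∧ w ∈ U := by
  unfold ng
  rw [Submodule.mem_inf, LinearMap.mem_ker, LinearMap.add_apply, LinearMap.id_apply,
    add_eq_zero_iff_eq_neg]

lemma le_fx_add_ng {A : G → V →ₗ[K] V} {U : Submodule K V} (hU : Exact A U) {g : G}
    (hg : g * g = 1) : finrank K U ≤ finrank K (fx A U g) + finrank K (ng A U g) := by
  have h := rn (A g - LinearMap.id) U
  have h2 : U.map (A g - LinearMap.id) ≤ ng A U g := by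
    rintro x ⟨w, hw, rfl⟩
    rw [mem_ng]
    obtain ⟨h1, h2, h3⟩ := hU
    refine ⟨?_, ?_⟩
    · rw [LinearMap.sub_apply, LinearMap.id_apply, map_sub, h2 g g w hw, hg, h3 w hw]
      abel
    · rw [LinearMap.sub_apply, LinearMap.id_apply]
      exact U.sub_mem (h1 g w hw) hw
  have h3 := Submodule.finrank_mono h2
  unfold fx
  omega

lemma exact_fx {A : G → V →ₗ[K] V} {U : Submodule K V} (hU : Exact A U) (g : G) :
    Exact A (fx A U g) := by
  obtain ⟨h1, h2, h3⟩ := hU
  refine ⟨?_, fun a b w hw => h2 a b w (mem_fx.1 hw).2, fun w hw => h3 w (mem_fx.1 hw).2⟩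
  intro a w hw
  obtain ⟨hw1, hw2⟩ := mem_fx.1 hw
  rw [mem_fx]
  exact ⟨by rw [h2 g a w hw2, mul_comm, ← h2 a g w hw2, hw1], h1 a w hw2⟩

lemma exact_ng {A : G → V →ₗ[K] V} {U : Submodule K V} (hU : Exact A U) (g : G) :
    Exact A (ng A U g) := by
  obtain ⟨h1, h2, h3⟩ := hU
  refine ⟨?_, fun a b w hw => h2 a b w (mem_ng.1 hw).2, fun w hw => h3 w (mem_ng.1 hw).2⟩
  intro a w hw
  obtain ⟨hw1, hw2⟩ := mem_ng.1 hw
  rw [mem_ng]
  exact ⟨by rw [h2 g a w hw2, mul_comm, ← h2 a g w hw2, hw1, map_neg], h1 a w hw2⟩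

lemma disj_le {P Q R : Submodule K V} (hP : P ≤ R) (hQ : Q ≤ R) (hd : P ⊓ Q = ⊥) :
    finrank K P + finrank K Q ≤ finrank K R := by
  have h := Submodule.finrank_sup_add_finrank_inf_eq P Q
  rw [hd, finrank_bot, add_zero] at h
  rw [← h]
  exact Submodule.finrank_mono (sup_le hP hQ)

lemma step (h2 : (2 : K) ≠ 0) {A : G → V →ₗ[K] V} {U : Submodule K V} (hU : Exact A U) {e h : G}
    (hh : h * h = 1) :
    2 * finrank K (fx A (fx A U e) h) + finrank K (ng A U e) ≤
      finrank K (fx A U h) + finrank K (fx A U (e * h)) := by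
  have hd : ∀ w, w ∈ fx A U e → w ∈ ng A U e → w = 0 := by
    intro w hw hw'
    have a := (mem_fx.1 hw).1
    have b := (mem_ng.1 hw').1
    rw [a] at b
    have : (2 : K) • w = 0 := by rw [two_smul]; nth_rewrite 2 [b]; abel
    exact (smul_eq_zero.1 this).resolve_left h2
  have hU' := hU
  obtain ⟨h1, hm, h3⟩ := hU
  have k1 : finrank K (fx A (fx A U e) h) + finrank K (fx A (ng A U e) h) ≤
      finrank K (fx A U h) := by
    apply disj_le
    · intro w hw
      rw [mem_fx] at hw ⊢
      exact ⟨hw.1, (mem_fx.1 hw.2).2⟩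
    · intro w hw
      rw [mem_fx] at hw ⊢
      exact ⟨hw.1, (mem_ng.1 hw.2).2⟩
    · rw [eq_bot_iff]
      intro w hw
      obtain ⟨ha, hb⟩ := Submodule.mem_inf.1 hw
      exact hd w (mem_fx.1 ha).2 (mem_fx.1 hb).2
  have k2 : finrank K (fx A (fx A U e) h) + finrank K (ng A (ng A U e) h) ≤
      finrank K (fx A U (e * h)) := by
    apply disj_le
    · intro w hw
      rw [mem_fx] at hw ⊢
      obtain ⟨ha, hb⟩ := hw
      obtain ⟨hc, hd'⟩ := mem_fx.1 hb
      exact ⟨by rw [← hm e h w hd', ha, hc], hd'⟩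
    · intro w hw
      rw [mem_ng] at hw
      obtain ⟨ha, hb⟩ := hw
      obtain ⟨hc, hd'⟩ := mem_ng.1 hb
      rw [mem_fx]
      exact ⟨by rw [← hm e h w hd', ha, map_neg, hc, neg_neg], hd'⟩
    · rw [eq_bot_iff]
      intro w hw
      obtain ⟨ha, hb⟩ := Submodule.mem_inf.1 hw
      exact hd w (mem_fx.1 ha).2 (mem_ng.1 hb).2
  have k3 := le_fx_add_ng (exact_ng hU' e) hh
  omega

lemma sum_fix_aux (h2 : (2 : K) ≠ 0) (hG : ∀ g : G, g * g = 1) {ι : Type*} [DecidableEq ι]
    (e : ι → G) (A : G → V →ₗ[K] V) (s : Finset ι) :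
    ∀ U : Submodule K V, Exact A U →
    2 ^ s.card * finrank K U ≤ 2 * ∑ t ∈ s.powerset, finrank K (fx A U (∏ i ∈ t, e i)) := by
  induction s using Finset.induction_on with
  | empty =>
    intro U hU
    have : fx A U 1 = U := by
      ext w
      rw [mem_fx]
      exact ⟨fun h => h.2, fun h => ⟨hU.2.2 w h, h⟩⟩
    rw [Finset.card_empty, Finset.powerset_empty, Finset.sum_singleton, Finset.prod_empty, this]
    omega
  | insert a s ha ih =>
    intro U hU
    rw [Finset.card_insert_of_notMem ha, Finset.sum_powerset_insert ha, ← Finset.sum_add_distrib]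
    have h3 : ∀ t ∈ s.powerset, 2 * finrank K (fx A (fx A U (e a)) (∏ i ∈ t, e i)) +
        finrank K (ng A U (e a)) ≤
        finrank K (fx A U (∏ i ∈ t, e i)) + finrank K (fx A U (∏ i ∈ insert a t, e i)) := by
      intro t ht
      have hat : a ∉ t := fun h => ha (Finset.mem_powerset.1 ht h)
      rw [Finset.prod_insert hat]
      exact step h2 hU (hG _)
    have h4 := Finset.sum_le_sum h3
    rw [Finset.sum_add_distrib, ← Finset.mul_sum, Finset.sum_const, Finset.card_powerset,
      smul_eq_mul] at h4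
    have h5 := ih (fx A U (e a)) (exact_fx hU _)
    have h6 := le_fx_add_ng hU (hG (e a))
    have h7 : 2 ^ s.card * finrank K U ≤ 2 ^ s.card * (finrank K (fx A U (e a)) +
      finrank K (ng A U (e a))) := Nat.mul_le_mul_left _ h6
    rw [mul_add] at h7
    rw [pow_succ]
    nlinarith

lemma char_two (h2 : (2 : K) = 0) {A : G → V →ₗ[K] V} {U : Submodule K V} (hU : Exact A U) {g : G}
    (hg : g * g = 1) : finrank K U ≤ 2 * finrank K (fx A U g) := by
  have h := le_fx_add_ng hU hg
  have e : ng A U g = fx A U g := by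
    ext w
    rw [mem_ng, mem_fx]
    have : -w = w := by
      have h3 : (2 : K) • w = 0 := by rw [h2, zero_smul]
      rw [two_smul] at h3
      exact (eq_neg_of_add_eq_zero_left h3).symm
    rw [this]
  rw [e] at h
  omega

lemma sum_fix (hG : ∀ g : G, g * g = 1) {ι : Type*} [DecidableEq ι]
    (e : ι → G) (A : G → V →ₗ[K] V) (s : Finset ι) (U : Submodule K V) (hU : Exact A U) :
    2 ^ s.card * finrank K U ≤ 2 * ∑ t ∈ s.powerset, finrank K (fx A U (∏ i ∈ t, e i)) := by
  by_cases h2 : (2 : K) = 0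
  · rw [Finset.mul_sum, ← Finset.card_powerset, ← smul_eq_mul, ← Finset.sum_const]
    exact Finset.sum_le_sum fun t _ => char_two h2 hU (hG _)
  · exact sum_fix_aux h2 hG e A s U hU

lemma inf_codim {ι : Type*} (s : Finset ι) (S : ι → Submodule K V) (c : ℝ)
    (h : ∀ i ∈ s, (finrank K V : ℝ) ≤ finrank K (S i) + c) :
    (finrank K V : ℝ) ≤ finrank K (s.inf S : Submodule K V) + s.card * c := by
  classical
  induction s using Finset.induction_on with
  | empty => rw [Finset.inf_empty, finrank_top]; simp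
  | insert a s ha ih =>
    have h1 := ih fun i hi => h i (Finset.mem_insert_of_mem hi)
    have h2 := h a (Finset.mem_insert_self _ _)
    have h3 := Submodule.finrank_sup_add_finrank_inf_eq (S a) (s.inf S)
    have h4 := Submodule.finrank_le (S a ⊔ s.inf S)
    rw [Finset.inf_insert, Finset.card_insert_of_notMem ha]
    have h5 : (finrank K (S a) : ℝ) + finrank K (s.inf S : Submodule K V) ≤
        finrank K V + finrank K (S a ⊓ s.inf S : Submodule K V) := by
      exact_mod_cast by omega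
    push_cast
    linarith

end Part2

section Part3

lemma mulVecLin_sub_apply {K : Type v} [Field K] {n : ℕ} (M N : Matrix (Fin n) (Fin n) K)
    (w : Fin n → K) : (M - N).mulVecLin w = M.mulVecLin w - N.mulVecLin w := by
  rw [Matrix.mulVecLin_apply, Matrix.sub_mulVec, Matrix.mulVecLin_apply, Matrix.mulVecLin_apply]

lemma rank_pos_of_ne {K : Type v} [Field K] {n : ℕ} (M : Matrix (Fin n) (Fin n) K) (h : M ≠ 0) :
    1 ≤ M.rank := by
  by_contra hc
  have h0 : M.rank = 0 := by omega
  unfold Matrix.rank at h0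
  rw [Submodule.finrank_eq_zero, LinearMap.range_eq_bot] at h0
  apply h
  ext i j
  have h1 := congrFun (LinearMap.congr_fun h0 (Pi.single j 1)) i
  simpa using h1

lemma approx_of_finite (K : Type v) [Field K] (G : Type u) [Group G] [Finite G] :
    ∃ ε : ℝ, 0 < ε ∧ Approximable K ε G := by
  classical
  have := Fintype.ofFinite G
  set n := Fintype.card G with hn
  have hn1 : 1 ≤ n := Fintype.card_pos
  let e : G ≃ Fin n := Fintype.equivFin G
  let F : G →* Module.End K (Fin n → K) :=
    { toFun := fun g => LinearMap.funLeft K K (fun x => e (g⁻¹ * e.symm x))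
      map_one' := by
        ext v x
        simp [LinearMap.funLeft_apply]
      map_mul' := by
        intro g h
        apply LinearMap.ext
        intro v
        ext x
        rw [Module.End.mul_apply, LinearMap.funLeft_apply, LinearMap.funLeft_apply,
          LinearMap.funLeft_apply, Equiv.symm_apply_apply, mul_inv_rev, mul_assoc] }
  let φ : G → GL (Fin n) K := fun g => Matrix.GeneralLinearGroup.toLin.symm (MonoidHom.toHomUnits F g)
  have hφ : ∀ g h, φ (g * h) = φ g * φ h := by
    intro g h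
    simp only [φ]
    rw [map_mul, map_mul]
  have hcoe : ∀ g, ((φ g : GL (Fin n) K) : Matrix (Fin n) (Fin n) K).mulVecLin = F g := by
    intro g
    have h1 : Matrix.GeneralLinearGroup.toLin (φ g) = MonoidHom.toHomUnits F g := by
      simp [φ]
    have h2 := congrArg (fun u : LinearMap.GeneralLinearGroup K (Fin n → K) =>
      (u : (Fin n → K) →ₗ[K] (Fin n → K))) h1
    simpa using h2
  have hn' : (0 : ℝ) < n := by exact_mod_cast hn1
  refine ⟨1 / n, by positivity, ?_⟩
  intro A δ hδ
  refine ⟨n, hn1, φ, ?_, ?_⟩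
  · intro g _ h _
    unfold dRank
    rw [hφ]
    simpa using hδ
  · intro g _ h _ hgh
    unfold dRank
    have hne : ((φ g : GL (Fin n) K) : Matrix (Fin n) (Fin n) K) - φ h ≠ 0 := by
      intro h0
      have h1 : F g = F h := by rw [← hcoe, ← hcoe, sub_eq_zero.1 h0]
      have h2 := congrFun (congrArg (fun f : Module.End K (Fin n → K) =>
        f (Pi.single (e g⁻¹) 1)) h1) (e 1)
      have h3 : ∀ k, F k (Pi.single (e g⁻¹) 1) (e 1) =
          (Pi.single (e g⁻¹) 1 : Fin n → K) (e k⁻¹) := by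
        intro k
        show LinearMap.funLeft K K (fun x => e (k⁻¹ * e.symm x)) (Pi.single (e g⁻¹) 1) (e 1) = _
        rw [LinearMap.funLeft_apply, Equiv.symm_apply_apply, mul_one]
      simp only [h3] at h2
      rw [Pi.single_eq_same, Pi.single_eq_of_ne] at h2
      · exact one_ne_zero h2
      · intro h4
        exact hgh (inv_injective (e.injective h4)).symm
    have h1 := rank_pos_of_ne _ hne
    have h2 : (1 : ℝ) ≤ (((φ g : GL (Fin n) K) : Matrix (Fin n) (Fin n) K) - φ h).rank := by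
      exact_mod_cast h1
    have h3 : 1 / (n : ℝ) ≤ (((φ g : GL (Fin n) K) : Matrix (Fin n) (Fin n) K) - φ h).rank / n :=
      div_le_div_of_nonneg_right h2 hn'.le
    linarith

lemma comap_codim {K : Type v} [Field K] {V : Type*} [AddCommGroup V] [Module K V]
    [FiniteDimensional K V] (f : V →ₗ[K] V) (W : Submodule K V) :
    finrank K W ≤ finrank K (W.comap f) := by
  have h1 := LinearMap.finrank_range_add_finrank_ker (W.mkQ ∘ₗ f)
  rw [LinearMap.ker_comp, Submodule.ker_mkQ] at h1
  have h2 := Submodule.finrank_le (LinearMap.range (W.mkQ ∘ₗ f))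
  have h3 := Submodule.finrank_quotient_add_finrank W
  omega

lemma not_approx (K : Type v) [Field K] (ε : ℝ) (hε : 1 / 2 < ε) :
    ∃ m : ℕ, ¬ Approximable K ε (Multiplicative (Fin m → ZMod 2)) := by
  classical
  obtain ⟨m, hm⟩ : ∃ m : ℕ, 1 ≤ ((2 : ℝ) ^ m - 1) * (ε - 1 / 2) := by
    have h0 : 0 < ε - 1 / 2 := by linarith
    obtain ⟨m, hm⟩ := pow_unbounded_of_one_lt (1 / (ε - 1 / 2) + 1) (one_lt_two : (1 : ℝ) < 2)
    refine ⟨m, ?_⟩
    have h1 : 1 / (ε - 1 / 2) ≤ (2 : ℝ) ^ m - 1 := by linarith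
    rwa [div_le_iff₀ h0] at h1
  refine ⟨m, fun H => ?_⟩
  let G := Multiplicative (Fin m → ZMod 2)
  set c : ℝ := (Fintype.card G : ℝ) with hc
  have hc0 : 0 ≤ c := Nat.cast_nonneg _
  set C : ℝ := c * c + c * (c * c) with hC
  have hC0 : 0 ≤ C := by positivity
  have hδ : (0 : ℝ) < 1 / (2 ^ m * (C + 2) + 1) := by positivity
  obtain ⟨n, hn, φ, h1, h2⟩ := H Finset.univ _ hδ
  set δ : ℝ := 1 / (2 ^ m * (C + 2) + 1) with hδdef
  have hn' : (0 : ℝ) < n := by exact_mod_cast hn
  let A : G → (Fin n → K) →ₗ[K] (Fin n → K) := fun g =>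
    ((φ g : GL (Fin n) K) : Matrix (Fin n) (Fin n) K).mulVecLin
  let D : G × G → Matrix (Fin n) (Fin n) K := fun p =>
    (φ p.1 : Matrix (Fin n) (Fin n) K) * (φ p.2 : Matrix (Fin n) (Fin n) K) -
      (φ (p.1 * p.2) : Matrix (Fin n) (Fin n) K)
  have hfr : finrank K (Fin n → K) = n := by simp
  have hD : ∀ p, ((D p).rank : ℝ) ≤ δ * n := by
    intro p
    have h3 := h1 p.1 (Finset.mem_univ _) p.2 (Finset.mem_univ _)
    unfold dRank at h3
    rw [div_lt_iff₀ hn'] at h3
    exact h3.le
  have hkerM : ∀ M : Matrix (Fin n) (Fin n) K,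
      (finrank K (LinearMap.ker M.mulVecLin) : ℝ) + M.rank = n := by
    intro M
    have := finrank_ker M
    rw [Fintype.card_fin] at this
    exact_mod_cast this
  let W : Submodule K (Fin n → K) :=
    (Finset.univ : Finset (G × G)).inf fun p => LinearMap.ker (D p).mulVecLin
  have hW : (n : ℝ) ≤ finrank K W + c * c * (δ * n) := by
    have h3 := inf_codim (K := K) (Finset.univ : Finset (G × G))
      (fun p => LinearMap.ker (D p).mulVecLin) (δ * n) (by
        intro p _
        have h4 := hkerM (D p)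
        have h5 := hD p
        rw [hfr]
        linarith)
    rw [hfr, Finset.card_univ, Fintype.card_prod] at h3
    push_cast at h3
    exact h3
  let U : Submodule K (Fin n → K) := W ⊓ (Finset.univ : Finset G).inf fun k => W.comap (A k)
  have hU2 : (n : ℝ) ≤ finrank K ((Finset.univ : Finset G).inf fun k => W.comap (A k) :
      Submodule K (Fin n → K)) + c * (c * c * (δ * n)) := by
    have h3 := inf_codim (K := K) (Finset.univ : Finset G)
      (fun k => W.comap (A k)) (c * c * (δ * n)) (by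
        intro k _
        have h4 : (finrank K W : ℝ) ≤ finrank K (W.comap (A k)) := by
          exact_mod_cast comap_codim (A k) W
        rw [hfr]
        linarith)
    rw [hfr, Finset.card_univ] at h3
    exact h3
  have hUdim : (n : ℝ) ≤ finrank K U + C * δ * n := by
    have h3 := Submodule.finrank_sup_add_finrank_inf_eq W
      ((Finset.univ : Finset G).inf fun k => W.comap (A k))
    have h4 := Submodule.finrank_le (W ⊔ (Finset.univ : Finset G).inf fun k => W.comap (A k))
    rw [hfr] at h4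
    have h5 : (finrank K W : ℝ) + finrank K ((Finset.univ : Finset G).inf fun k => W.comap (A k) :
      Submodule K (Fin n → K)) ≤ n + finrank K U := by
      exact_mod_cast by
        show finrank K W + _ ≤ n + finrank K (W ⊓ (Finset.univ : Finset G).inf fun k => W.comap (A k) :
          Submodule K (Fin n → K))
        omega
    rw [hC]
    nlinarith
  have hWmem : ∀ w ∈ W, ∀ g h, A g (A h w) = A (g * h) w := by
    intro w hw g h
    have h3 : w ∈ LinearMap.ker (D (g, h)).mulVecLin := by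
      have := (Finset.inf_le (Finset.mem_univ (g, h)) :
        W ≤ (fun p => LinearMap.ker (D p).mulVecLin) (g, h))
      exact this hw
    rw [LinearMap.mem_ker, mulVecLin_sub_apply, sub_eq_zero, Matrix.mulVecLin_mul] at h3
    exact h3
  have hUW : ∀ w ∈ U, ∀ k, A k w ∈ W := by
    intro w hw k
    have h3 := (Finset.inf_le (Finset.mem_univ k) :
        ((Finset.univ : Finset G).inf fun k => W.comap (A k)) ≤ (fun k => W.comap (A k)) k)
    exact h3 (Submodule.mem_inf.1 hw).2
  have hex : Exact A U := by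
    refine ⟨?_, ?_, ?_⟩
    · intro g w hw
      refine Submodule.mem_inf.2 ⟨hUW w hw g, ?_⟩
      rw [Submodule.mem_finsetInf]
      intro k _
      show A k (A g w) ∈ W
      rw [hWmem w (Submodule.mem_inf.1 hw).1]
      exact hUW w hw _
    · intro g h w hw
      exact hWmem w (Submodule.mem_inf.1 hw).1 g h
    · intro w hw
      have h3 := hWmem w (Submodule.mem_inf.1 hw).1 1 1
      rw [mul_one] at h3
      have h4 : Function.Injective (A 1) := by
        intro x y hxy
        have h5 := congrArg (fun v => ((((φ 1)⁻¹ : GL (Fin n) K)) : Matrix (Fin n) (Fin n) K).mulVec v) hxy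
        simpa [A] using h5
      exact h4 h3
  have hGG : ∀ g : G, g * g = 1 := by
    intro g
    apply Multiplicative.toAdd.injective
    ext i
    show Multiplicative.toAdd g i + Multiplicative.toAdd g i = 0
    exact CharTwo.add_self_eq_zero _
  let e : Fin m → G := fun i => Multiplicative.ofAdd (Pi.single i 1)
  have hprod : ∀ t : Finset (Fin m), t ≠ ∅ → (∏ i ∈ t, e i) ≠ 1 := by
    intro t ht h0
    obtain ⟨j, hj⟩ := Finset.nonempty_iff_ne_empty.2 ht
    have h3 : Multiplicative.toAdd (∏ i ∈ t, e i) = 0 := by rw [h0]; rfl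
    rw [toAdd_prod] at h3
    have h4 := congrFun h3 j
    rw [Finset.sum_apply] at h4
    have h5 : ∀ i ∈ t, i ≠ j → (Multiplicative.toAdd (e i)) j = 0 := by
      intro i _ hij
      show (Pi.single i 1 : Fin m → ZMod 2) j = 0
      exact Pi.single_eq_of_ne' hij 1
    rw [Finset.sum_eq_single_of_mem j hj h5] at h4
    have h6 : (Multiplicative.toAdd (e j)) j = 1 := by
      show (Pi.single j 1 : Fin m → ZMod 2) j = 1
      exact Pi.single_eq_same j 1
    rw [h6] at h4
    exact one_ne_zero h4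
  have hsum := sum_fix hGG e A Finset.univ U hex
  rw [Finset.card_univ, Fintype.card_fin] at hsum
  have hfx : ∀ t ∈ (Finset.univ : Finset (Fin m)).powerset.erase ∅,
      (finrank K (fx A U (∏ i ∈ t, e i)) : ℝ) ≤ (1 - ε + δ) * n := by
    intro t ht
    have ht0 := (Finset.mem_erase.1 ht).1
    have h3 := h2 (∏ i ∈ t, e i) (Finset.mem_univ _) 1 (Finset.mem_univ _) (hprod t ht0)
    unfold dRank at h3
    rw [lt_div_iff₀ hn'] at h3
    have h4 : fx A U (∏ i ∈ t, e i) ≤ LinearMap.ker
        ((φ (∏ i ∈ t, e i) : Matrix (Fin n) (Fin n) K) - (φ 1 : Matrix (Fin n) (Fin n) K)).mulVecLin := by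
      intro w hw
      obtain ⟨ha, hb⟩ := mem_fx.1 hw
      rw [LinearMap.mem_ker, mulVecLin_sub_apply, sub_eq_zero]
      exact ha.trans (hex.2.2 w hb).symm
    have h5 : (finrank K (fx A U (∏ i ∈ t, e i)) : ℝ) ≤ finrank K (LinearMap.ker
        ((φ (∏ i ∈ t, e i) : Matrix (Fin n) (Fin n) K) - (φ 1 : Matrix (Fin n) (Fin n) K)).mulVecLin) := by
      exact_mod_cast Submodule.finrank_mono h4
    have h6 := hkerM ((φ (∏ i ∈ t, e i) : Matrix (Fin n) (Fin n) K) - (φ 1 : Matrix (Fin n) (Fin n) K))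
    linarith
  have hsum2 : ((∑ t ∈ (Finset.univ : Finset (Fin m)).powerset, finrank K (fx A U (∏ i ∈ t, e i)) : ℕ) : ℝ)
      ≤ finrank K U + (2 ^ m - 1) * ((1 - ε + δ) * n) := by
    rw [← Finset.add_sum_erase _ _ (Finset.empty_mem_powerset _)]
    rw [Nat.cast_add, Nat.cast_sum]
    have h3 := Finset.sum_le_sum hfx
    rw [Finset.sum_const, nsmul_eq_mul, Finset.card_erase_of_mem (Finset.empty_mem_powerset _),
      Finset.card_powerset, Finset.card_univ, Fintype.card_fin, Nat.cast_sub Nat.one_le_two_pow] at h3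
    push_cast at h3
    have h4 : (finrank K (fx A U (∏ i ∈ (∅ : Finset (Fin m)), e i)) : ℝ) ≤ finrank K U := by
      have : fx A U (∏ i ∈ (∅ : Finset (Fin m)), e i) ≤ U := inf_le_right
      exact_mod_cast Submodule.finrank_mono this
    linarith
  have hsum3 : (2 : ℝ) ^ m * finrank K U ≤ 2 * ((∑ t ∈ (Finset.univ : Finset (Fin m)).powerset,
      finrank K (fx A U (∏ i ∈ t, e i)) : ℕ) : ℝ) := by
    exact_mod_cast hsum
  -- final arithmetic
  have h2m : (1 : ℝ) ≤ 2 ^ m := one_le_pow₀ (by norm_num)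
  have hδ2 : δ * (2 ^ m * (C + 2) + 1) = 1 := by
    rw [hδdef]
    field_simp
  set P : ℝ := 2 ^ m with hP
  set u : ℝ := (finrank K U : ℝ) with hu
  have hu0 : 0 ≤ u := Nat.cast_nonneg _
  have hm2 : (2 : ℝ) ≤ P := by
    by_contra hlt
    have hm1 : m = 0 := by
      by_contra hm0
      apply hlt
      rw [hP]
      calc (2 : ℝ) = 2 ^ 1 := by norm_num
        _ ≤ 2 ^ m := pow_le_pow_right₀ (by norm_num) (by omega)
    rw [hP, hm1] at hm
    norm_num at hm
  have hA : (P - 2) * u ≤ 2 * ((P - 1) * ((1 - ε + δ) * n)) := by linarith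
  have hB : (P - 2) * (n - C * δ * n) ≤ (P - 2) * u := by
    apply mul_le_mul_of_nonneg_left _ (by linarith)
    linarith
  have hCC : (P - 2) * (1 - C * δ) * n ≤ 2 * (P - 1) * (1 - ε + δ) * n := by linarith
  have hDD : (P - 2) * (1 - C * δ) ≤ 2 * (P - 1) * (1 - ε + δ) := le_of_mul_le_mul_right hCC hn'
  nlinarith [mul_nonneg hδ.le hC0]

end Part3

/-- Over every field `K` and for every group: for `0 < ε ≤ 1/2` the class `𝒞_ε` equals the class
`𝒞_{1/4}` of linear sofic groups, and for `ε > 1/2` it does not, a finite group being a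
counterexample. -/
theorem result :
    (∀ (K : Type v) [Field K] (ε : ℝ), 0 < ε → ε ≤ 1 / 2 → ∀ (G : Type u) [Group G],
      (Approximable K ε G ↔ Approximable K (1 / 4) G)) ∧
    (∀ (K : Type v) [Field K] (ε : ℝ), 1 / 2 < ε → ∃ (G : Type) (_ : Group G) (_ : Finite G),
      Approximable K (1 / 4) G ∧ ¬ Approximable K ε G) := by
  refine ⟨?_, ?_⟩
  · intro K _ ε hε hε2 G _
    constructor
    · intro h
      exact (half_of_pos hε h).mono (by norm_num)
    · intro h
      exact (half_of_pos (by norm_num) h).mono hε2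
  · intro K _ ε hε
    obtain ⟨m, hm⟩ := not_approx K ε hε
    refine ⟨Multiplicative (Fin m → ZMod 2), inferInstance, inferInstance, ?_, hm⟩
    obtain ⟨η, hη, h⟩ := approx_of_finite K (Multiplicative (Fin m → ZMod 2))
    exact (half_of_pos hη h).mono (by norm_num)

end Pool.Agent.Results.MP_7f7a01_al.Threshold
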